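import Mathlib
import Pool.Agent.W313.HB.Stm4
import Pool.Agent.W554.HB.Type

/-!
# HB-RATIO2: the twists with local points have positive density; proportions (two parameters)
-/

set_option autoImplicit false
set_option maxHeartbeats 400000

namespace Pool.Agent.W975.HB

open Finset Pool.Agent.W313.BMX Pool.Agent.W313.HB Pool.Agent.W554.HB

/-- the squarefree part of a rational number -/
theorem sqf_part (u : ℚ) (hu : u ≠ 0) :
    ∃ (a : ℤ) (s : ℚ), Squarefree a ∧ s ≠ 0 ∧ u = a * s ^ 2 := by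
  obtain ⟨m, hm⟩ : ∃ m : ℤ, m = u.num * u.den := ⟨_, rfl⟩
  have hden : (u.den : ℚ) ≠ 0 := by exact_mod_cast u.den_ne_zero
  have hm0 : m ≠ 0 := by
    rw [hm]
    exact mul_ne_zero (Rat.num_ne_zero.2 hu) (by exact_mod_cast u.den_ne_zero)
  have hu2 : u = (m : ℚ) / (u.den : ℚ) ^ 2 := by
    rw [hm]
    push_cast
    rw [eq_div_iff (pow_ne_zero 2 hden)]
    have h := Rat.mul_den_eq_num u
    rw [← h]
    ring
  obtain ⟨a, b, hb, ha⟩ := Nat.sq_mul_squarefree m.natAbs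
  have hb0 : (b : ℚ) ≠ 0 := by
    intro h
    have h1 : b = 0 := by exact_mod_cast h
    rw [h1] at hb
    simp only [ne_eq, OfNat.ofNat_ne_zero, not_false_eq_true, zero_pow, zero_mul] at hb
    exact hm0 (Int.natAbs_eq_zero.1 hb.symm)
  refine ⟨m.sign * a, b / u.den, ?_, div_ne_zero hb0 hden, ?_⟩
  · rw [← Int.squarefree_natAbs, Int.natAbs_mul, Int.natAbs_sign_of_ne_zero hm0, one_mul,
      Int.natAbs_natCast]
    exact ha
  · have h1 : (m : ℚ) = m.sign * (b ^ 2 * a) := by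
      have h2 := Int.sign_mul_natAbs m
      rw [← hb] at h2
      have h3 := congrArg (fun t : ℤ => (t : ℚ)) h2
      push_cast at h3
      exact h3.symm
    conv_lhs => rw [hu2]
    rw [div_pow]
    rw [show ((m.sign * a : ℤ) : ℚ) * ((b : ℚ) ^ 2 / (u.den : ℚ) ^ 2) =
      ((m.sign : ℚ) * ((b : ℚ) ^ 2 * a)) / (u.den : ℚ) ^ 2 by push_cast; ring]
    rw [← h1]

theorem splits_of_sq {F : Type} [Field F] {a b c : F} (h : a = c ^ 2) : Splits a b :=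
  ⟨1, 0, c, Or.inl one_ne_zero, by rw [h]; ring⟩

theorem splits_cast {K : Type} [Field K] [CharZero K] {a b : ℚ} (h : Splits a b) :
    Splits (a : K) (b : K) := by
  obtain ⟨x, y, z, h0, h1⟩ := h
  refine ⟨x, y, z, by simpa using h0, ?_⟩
  have h2 := congrArg (fun t : ℚ => (t : K)) h1
  push_cast at h2
  exact h2

theorem aeval_cast {K : Type} [Field K] [CharZero K] {n : ℕ} (x : Fin (n + 1) → ℚ)
    (G : MvPolynomial (Fin (n + 1)) ℤ) :
    MvPolynomial.aeval (fun i => (x i : K)) G = ((MvPolynomial.aeval x G : ℚ) : K) := by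
  have h := MvPolynomial.map_aeval x (Rat.castHom K) G
  rw [Rat.coe_castHom] at h
  rw [h, MvPolynomial.aeval_def, MvPolynomial.coe_eval₂Hom]
  congr 1
  exact Subsingleton.elim _ _

theorem hasPW_of {n : ℕ} {G1 G2 : MvPolynomial (Fin (n + 1)) ℤ} {a b : ℤ} {K : Type} [Field K]
    [CharZero K] {Ω : Set (Fin (n + 1) → K)} {x0 : Fin (n + 1) → ℚ}
    (hx : (fun i => (x0 i : K)) ∈ Ω) (h1 : MvPolynomial.aeval x0 G1 ≠ 0)
    (h2 : MvPolynomial.aeval x0 G2 ≠ 0)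
    (hs : Splits ((a : K) * ((MvPolynomial.aeval x0 G1 : ℚ) : K))
      ((b : K) * ((MvPolynomial.aeval x0 G2 : ℚ) : K))) : HasPW G1 G2 a b Ω := by
  refine ⟨_, hx, ?_, ?_, ?_⟩
  · rw [aeval_cast]
    exact_mod_cast h1
  · rw [aeval_cast]
    exact_mod_cast h2
  · rw [aeval_cast, aeval_cast]
    exact hs

theorem hasPW_of_glob {n : ℕ} {G1 G2 : MvPolynomial (Fin (n + 1)) ℤ} {a b : ℤ}
    {Ωr : Set (Fin (n + 1) → ℝ)} {Ω : ∀ p : Nat.Primes, Set (Fin (n + 1) → ℚ_[(p : ℕ)])}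
    (h : GlobW G1 G2 a b Ωr Ω) :
    HasPW G1 G2 a b Ωr ∧ ∀ p : Nat.Primes, HasPW G1 G2 a b (Ω p) := by
  obtain ⟨x, hxr, hxp, h1, h2, h3⟩ := h
  constructor
  · apply hasPW_of hxr h1 h2
    have := splits_cast (K := ℝ) h3
    push_cast at this
    exact this
  · intro p
    apply hasPW_of (hxp p) h1 h2
    have := splits_cast (K := ℚ_[(p : ℕ)]) h3
    push_cast at this
    exact this

theorem sq_padic {p : ℕ} [Fact p.Prime] {a a0 : ℤ} (ha0 : Squarefree a0)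
    (hd : (p : ℤ) ^ 5 ∣ a - a0) : ∃ c : ℚ_[p], (a : ℚ_[p]) = a0 * c ^ 2 := by
  have hB := norm_sqf (p := p) ha0
  have h4 := norm_four_ge (p := p)
  have hp2 := p_two (p := p)
  have hp0 : (0 : ℝ) < p := by linarith
  have h0 : (a0 : ℚ_[p]) ≠ 0 := by exact_mod_cast ha0.ne_zero
  have h5 : ‖((a - a0 : ℤ) : ℚ_[p])‖ ≤ (p : ℝ) ^ (-(5 : ℕ) : ℤ) :=
    (Padic.norm_int_le_pow_iff_dvd _ _).2 (by exact_mod_cast hd)
  push_cast at h5
  have h6 : (p : ℝ) ^ (-5 : ℤ) < (p : ℝ) ^ (-2 : ℤ) * (p : ℝ) ^ (-1 : ℤ) := by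
    rw [← zpow_add₀ hp0.ne']
    exact zpow_lt_zpow_right₀ (by linarith) (by norm_num)
  obtain ⟨c, -, h⟩ := near (p := p) (A := (a : ℚ_[p])) (B := (a0 : ℚ_[p])) h0
    (h5.trans_lt (h6.trans_le (mul_le_mul h4 hB (by positivity) (norm_nonneg _))))
  exact ⟨c, h⟩

/-- HB-RATIO2 -/
theorem ratio2_ (ht : S_T2F) (hd : S_DPAIR) (he : S_ELSB2) (hx : S_XAPP) : S_RATIO2 := by
  intro n α β γ A B C hA hB hC hαγ hβγ hγ hsq Ωr Ω hΩr hΩ hfin hne hne'
  classical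
  have hG : A * B * C ≠ 0 := by
    intro h
    rw [h, map_zero] at hsq
    exact not_squarefree_zero hsq
  obtain ⟨x0, hxr, hxp, hx0⟩ := hx n (A * B * C) hG Ωr Ω hΩr hΩ hfin hne hne'
  rw [map_mul, map_mul] at hx0
  have hC0 := right_ne_zero_of_mul hx0
  have hB0 := right_ne_zero_of_mul (left_ne_zero_of_mul hx0)
  have hA0 := left_ne_zero_of_mul (left_ne_zero_of_mul hx0)
  have hu : MvPolynomial.aeval x0 (A * C) ≠ 0 := by
    rw [map_mul]
    exact mul_ne_zero hA0 hC0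
  have hv : MvPolynomial.aeval x0 (B * C) ≠ 0 := by
    rw [map_mul]
    exact mul_ne_zero hB0 hC0
  obtain ⟨a0, s, ha0, hs, hu2⟩ := sqf_part _ hu
  obtain ⟨b0, t, hb0, ht0, hv2⟩ := sqf_part _ hv
  obtain ⟨z0, hz0⟩ := he n α β γ A B C hA hB hC hαγ hβγ hγ hsq
  obtain ⟨z1, hz1⟩ : ∃ z1 : ℕ, ∀ p : Nat.Primes, z1 < (p : ℕ) → Ω p = Set.univ := by
    obtain ⟨z1, hz1⟩ := (hfin.image (fun p : Nat.Primes => (p : ℕ))).bddAbove
    refine ⟨z1, fun p hp => ?_⟩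
    by_contra h
    have := hz1 ⟨p, h, rfl⟩
    simp only at this
    omega
  obtain ⟨z, hz⟩ : ∃ z : ℕ, z = 100 + z0 + z1 := ⟨_, rfl⟩
  obtain ⟨c, hc, H0, hH0⟩ := hd z 5 a0 b0 (by omega) (by norm_num) ha0 hb0
  have hloc : ∀ a b : ℤ, Squarefree a → Squarefree b → 0 < a * a0 → 0 < b * b0 →
      ((primorial z ^ 5 : ℕ) : ℤ) ∣ a - a0 → ((primorial z ^ 5 : ℕ) : ℤ) ∣ b - b0 →
      (∀ p : ℕ, p.Prime → z < p → (p : ℤ) ∣ a → ¬ (p : ℤ) ∣ b) →
      HasPW (A * C) (B * C) a b Ωr ∧ ∀ p : Nat.Primes, HasPW (A * C) (B * C) a b (Ω p) := by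
    intro a b ha hb h1 h2 h3 h4 h5
    constructor
    · apply hasPW_of hxr hu hv
      apply splits_of_sq (c := Real.sqrt ((a : ℝ) * a0) * (s : ℝ))
      have h6 : (0 : ℝ) ≤ (a : ℝ) * a0 := by
        have : (0 : ℝ) < ((a * a0 : ℤ) : ℝ) := by exact_mod_cast h1
        push_cast at this
        exact this.le
      rw [hu2, mul_pow, Real.sq_sqrt h6]
      push_cast
      ring
    · intro p
      by_cases hp : (p : ℕ) ≤ z
      · have h6 : ((p : ℕ) : ℤ) ^ 5 ∣ a - a0 := by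
          refine Dvd.dvd.trans ?_ h3
          have h7 : (p : ℕ) ∣ primorial z := by
            unfold primorial
            exact dvd_prod_of_mem _ (mem_filter.2 ⟨mem_range.2 (by omega), p.2⟩)
          exact_mod_cast pow_dvd_pow_of_dvd h7 5
        obtain ⟨d, hd⟩ := sq_padic (p := (p : ℕ)) ha0 h6
        apply hasPW_of (hxp p) hu hv
        apply splits_of_sq (c := (a0 : ℚ_[(p : ℕ)]) * d * (s : ℚ_[(p : ℕ)]))
        rw [hu2, hd]
        push_cast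
        ring
      · have hp' : z < (p : ℕ) := not_le.1 hp
        rw [hz1 p (by omega)]
        exact hz0 (p : ℕ) (by omega) a b ha hb (fun h => h5 p p.2 hp' h.1 h.2)
  have h1 : ∀ H : ℕ, H0 ≤ H → c * (H : ℝ) ^ 2 ≤ ((locc2 A B C Ωr Ω H).card : ℝ) := by
    intro H hH
    refine (hH0 H hH).trans ?_
    rw [Nat.cast_le]
    apply card_le_card
    intro x hx
    rw [mem_filter] at hx
    obtain ⟨hx1, a1, a2, a3, a4, a5, a6, a7⟩ := hx
    unfold locc2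
    rw [mem_filter]
    exact ⟨hx1, a1, a2, hloc x.1 x.2 a1 a2 a3 a4 a5 a6 a7⟩
  refine ⟨⟨c, hc, H0, h1⟩, ?_⟩
  have hsub : ∀ H, glob2 A B C Ωr Ω H ⊆ locc2 A B C Ωr Ω H := by
    intro H x hx
    unfold glob2 at hx
    rw [mem_filter] at hx
    unfold locc2
    rw [mem_filter]
    exact ⟨hx.1, hx.2.1, hx.2.2.1, hasPW_of_glob hx.2.2.2⟩
  rw [Metric.tendsto_atTop]
  intro ε hε
  obtain ⟨H1, hH1⟩ := ht n α β γ A B C hA hB hC hαγ hβγ hγ hsq Ωr Ω hΩr hΩ hfin (ε * c / 2)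
    (by positivity)
  refine ⟨max (max H0 H1) 1, fun H hH => ?_⟩
  have hHH0 : H0 ≤ H := le_trans (le_trans (le_max_left _ _) (le_max_left _ _)) hH
  have hHH1 : H1 ≤ H := le_trans (le_trans (le_max_right _ _) (le_max_left _ _)) hH
  have hH1' : 1 ≤ H := le_trans (le_max_right _ _) hH
  have hHR : (0 : ℝ) < H := by exact_mod_cast hH1'
  have hl := h1 H hHH0
  have hl0 : (0 : ℝ) < ((locc2 A B C Ωr Ω H).card : ℝ) := lt_of_lt_of_le (by positivity) hl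
  have hdiff : (((locc2 A B C Ωr Ω H) \ (glob2 A B C Ωr Ω H)).card : ℝ) ≤
      ε * c / 2 * (H : ℝ) ^ 2 := by
    refine le_trans ?_ (hH1 H hHH1)
    rw [Nat.cast_le]
    apply card_le_card
    intro x hx
    rw [mem_sdiff] at hx
    obtain ⟨hx1, hx2⟩ := hx
    unfold locc2 at hx1
    unfold glob2 at hx2
    rw [mem_filter] at hx1 hx2
    rw [mem_filter]
    exact ⟨hx1.1, hx1.2.1, hx1.2.2.1, hx1.2.2.2.1, hx1.2.2.2.2,
      fun h => hx2 ⟨hx1.1, hx1.2.1, hx1.2.2.1, h⟩⟩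
  have hcard : (((locc2 A B C Ωr Ω H) \ (glob2 A B C Ωr Ω H)).card : ℝ) =
      ((locc2 A B C Ωr Ω H).card : ℝ) - ((glob2 A B C Ωr Ω H).card : ℝ) := by
    have h2 := card_sdiff_add_card_eq_card (hsub H)
    rw [← h2]
    push_cast
    ring
  have hnn : (0 : ℝ) ≤ ((locc2 A B C Ωr Ω H).card : ℝ) - ((glob2 A B C Ωr Ω H).card : ℝ) := by
    rw [← hcard]
    exact Nat.cast_nonneg _
  rw [hcard] at hdiff
  rw [Real.dist_eq, div_sub_one hl0.ne', abs_div, abs_of_pos hl0, abs_sub_comm,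
    abs_of_nonneg hnn, div_lt_iff₀ hl0]
  have h3 : ε * c / 2 * (H : ℝ) ^ 2 ≤ ε / 2 * ((locc2 A B C Ωr Ω H).card : ℝ) := by
    calc ε * c / 2 * (H : ℝ) ^ 2 = ε / 2 * (c * (H : ℝ) ^ 2) := by ring
      _ ≤ _ := mul_le_mul_of_nonneg_left hl (by positivity)
  have h4 : ε / 2 * ((locc2 A B C Ωr Ω H).card : ℝ) < ε * ((locc2 A B C Ωr Ω H).card : ℝ) :=
    mul_lt_mul_of_pos_right (by linarith) hl0
  linarith

end Pool.Agent.W975.HB
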